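import Mathlib
import Pool.Agent.Q112.Leonard

/-!
# A Leonard pair with `β = 2` that does not come from the equitable basis of `sl₂`

`A` is lower bidiagonal with diagonal `0, 3, 8, 15` and subdiagonal `1, 1, 1`; `A'` is upper
bidiagonal with diagonal `0, 3, 8, 15` and superdiagonal `-3(16 - δ), -4(25 - δ), -3(36 - δ)`,
where `δ` is not a square in `K`.
-/

namespace Pool.Agent.Results.MP_d63bef_al.LeonardNotEquitable

open Pool.Agent.Q112.Leo

/-- Over every field `K` of characteristic zero containing a non-square there is a Leonard pair
`A, A'` with `β = 2` on `K⁴` such that for every irreducible `sl₂`-module structure on `K⁴` either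
`A` is not in the span of `I, x, y, xy` or `A'` is not in the span of `I, y, z, yz`. -/
theorem result (K : Type) [Field K] [CharZero K] (δ : K) (hδ : ¬ IsSquare δ) :
    ∃ A A' : Module.End K (Fin 4 → K), IsLeonardPair 3 A A' ∧ HasBetaTwo 3 A A' ∧
      ∀ x y z : Module.End K (Fin 4 → K), IsEquitable x y z → IsIrreducible x y z →
        ¬ (A ∈ Submodule.span K {1, x, y, x * y} ∧ A' ∈ Submodule.span K {1, y, z, y * z}) :=
  main δ hδ

end Pool.Agent.Results.MP_d63bef_al.LeonardNotEquitable
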